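import Pool.Agent.helper95.SP.SpecCH

/-!
# Project sp, part CH: one step of the chain lemma, exponential form, form for events
-/

namespace TP.K

open DP MeasureTheory

theorem CHS_locF_mono {Z : (V → Bool) → ℝ} {A A' : Set V} (h : LocF Z A) (hA : A ⊆ A') :
    LocF Z A' := by
  obtain ⟨Λ, h1, h2⟩ := h
  exact ⟨Λ, h1.trans hA, h2⟩

theorem CHS_locF_prod {w : ℕ → (V → Bool) → ℝ} {A : Set V} :
    ∀ J : ℕ, (∀ j < J, LocF (w j) A) → LocF (fun b => ∏ j ∈ Finset.range J, (1 - w j b)) A := by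
  classical
  intro J
  induction J with
  | zero => exact fun _ => ⟨∅, by simp, fun b b' _ => by simp⟩
  | succ J ih =>
    intro h
    obtain ⟨Λ, h1, h2⟩ := ih fun j hj => h j (by omega)
    obtain ⟨M, h3, h4⟩ := h J (by omega)
    refine ⟨Λ ∪ M, by push_cast; exact Set.union_subset h1 h3, fun b b' hb => ?_⟩
    have e1 := h2 b b' fun v hv => hb v (Finset.mem_union_left _ hv)
    have e2 := h4 b b' fun v hv => hb v (Finset.mem_union_right _ hv)
    simp only [Finset.prod_range_succ]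
    dsimp only at e1
    rw [e1, e2]

theorem CHS_wts {x : V} {t J : ℕ} {lo hi : ℕ → ℕ} {w : ℕ → (V → Bool) → ℝ}
    (h : Wts x t (J + 1) lo hi w) : Wts x t J lo hi w where
  nonneg j hj := h.nonneg j (by omega)
  half j hj := h.half j (by omega)
  loc j hj := h.loc j (by omega)
  start j hj := h.start j (by omega)
  le j hj := h.le j (by omega)
  gap j j' hj hj' := h.gap j j' hj (by omega)

theorem CHS_prod_nonneg {x : V} {t J : ℕ} {lo hi : ℕ → ℕ} {w : ℕ → (V → Bool) → ℝ}
    (h : Wts x t J lo hi w) (b : V → Bool) : 0 ≤ ∏ j ∈ Finset.range J, (1 - w j b) := by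
  refine Finset.prod_nonneg fun j hj => ?_
  have := h.half j (Finset.mem_range.1 hj) b
  linarith

theorem CHS (hIND : IND_stmt) (hSTEP : STEP_stmt) (hWB : WB_stmt) (hLQ : LQ_stmt) : CHS_stmt := by
  obtain ⟨C, hC, i₁, hI⟩ := hIND
  obtain ⟨c, hc, i₂, hS⟩ := hSTEP C hC
  refine ⟨c, hc, max i₁ i₂, ?_⟩
  intro x t I J lo hi w a hx ht hW hI7 ha haw
  have hW' := CHS_wts hW
  have hstart := hW.start J (by omega)
  have hle := hW.le J (by omega)
  have hZ0 : ∀ b, 0 ≤ ∏ j ∈ Finset.range J, (1 - w j b) := CHS_prod_nonneg hW'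
  have hZl : LocF (fun b => ∏ j ∈ Finset.range J, (1 - w j b)) (box x (2 ^ (lo J - 3))) := by
    refine CHS_locF_prod J fun j hj => CHS_locF_mono (hW'.loc j hj) ?_
    intro v hv
    have h1 : sd x v ≤ 2 ^ hi j := hv.2
    have h2 : hi j ≤ lo J - 3 := by
      have := hW.gap j J hj (by omega)
      omega
    exact h1.trans (Nat.pow_le_pow_right (by norm_num) h2)
  have hi1 := hI x t J lo hi w hx (le_trans (le_max_left _ _) ht) hW' (lo J - 3) (by omega)
    (fun j hj => by
      have := hW.gap j J hj (by omega)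
      omega)
  have e : lo J - 3 + 1 = lo J - 2 := by omega
  rw [e] at hi1
  have hs := hS x t (lo J) (hi J) I (fun b => ∏ j ∈ Finset.range J, (1 - w j b)) (w J) a hx
    (le_trans (le_max_right _ _) ht) hstart hle hI7 hZl hZ0 (hW.loc J (by omega))
    (hW.nonneg J (by omega)) hi1 ha haw
  have hsub := (hWB.2.2.2.1 (fun b => ∏ j ∈ Finset.range J, (1 - w j b)) (w J) _ _ (F4 x t I) _ hZl
    (hW.loc J (by omega)) (hLQ.1 x t I)).2.2
  simp only [Finset.prod_range_succ]
  rw [hsub]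
  linarith

theorem CHE (hCHS : CHS_stmt) (hWB : WB_stmt) : CHE_stmt := by
  obtain ⟨c, hc, i₁, hS⟩ := hCHS
  refine ⟨c, hc, i₁, ?_⟩
  intro x t I J lo hi w a hx ht
  induction J with
  | zero =>
    intro _ _ _ _
    simp only [Finset.range_zero, Finset.prod_empty, Finset.sum_empty, mul_zero, neg_zero,
      Real.exp_zero, one_mul]
    exact (hWB.1 _).le
  | succ J ih =>
    intro hW hI7 ha haw
    have h1 := hS x t I J lo hi w (a J) hx ht hW (hI7 J (by omega)) (ha J (by omega))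
      (haw J (by omega))
    have h2 := ih (CHS_wts hW) (fun j hj => hI7 j (by omega)) (fun j hj => ha j (by omega))
      (fun j hj => haw j (by omega))
    have h0 : 0 ≤ EZ (fun b => ∏ j ∈ Finset.range J, (1 - w j b)) (F4 x t I) :=
      hWB.2.2.2.2.2.2.1 _ _ (CHS_prod_nonneg (CHS_wts hW))
    have h3 : 1 - c * a J ≤ Real.exp (-(c * a J)) := by
      have := Real.add_one_le_exp (-(c * a J))
      linarith
    refine h1.trans ((mul_le_mul_of_nonneg_right h3 h0).trans ?_)
    rw [Finset.sum_range_succ, mul_add, neg_add, add_comm, Real.exp_add, mul_assoc]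
    exact mul_le_mul_of_nonneg_left h2 (Real.exp_pos _).le

theorem CHS_loc_none {Y : ℕ → Set (V → Bool)} {A : Set V} :
    ∀ J : ℕ, (∀ j < J, Loc (Y j) A) → Loc {b | ∀ j < J, b ∉ Y j} A := by
  intro J
  induction J with
  | zero =>
    intro _
    have : {b : V → Bool | ∀ j < 0, b ∉ Y j} = Set.univ := by
      ext b
      simp
    rw [this]
    exact Loc.univ A
  | succ J ih =>
    intro h
    have h1 := ih fun j hj => h j (by omega)
    have h2 := (h J (by omega)).compl
    have e : {b : V → Bool | ∀ j < J + 1, b ∉ Y j} = {b | ∀ j < J, b ∉ Y j} ∩ (Y J)ᶜ := by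
      ext b
      simp only [Set.mem_inter_iff, Set.mem_compl_iff, Nat.lt_succ_iff_lt_or_eq]
      constructor
      · intro hb
        exact ⟨fun j hj => hb j (Or.inl hj), hb J (Or.inr rfl)⟩
      · rintro ⟨h1, h2⟩ j (hj | rfl)
        · exact h1 j hj
        · exact h2
    rw [e]
    have h3 := h1.inter h2
    rwa [Set.union_self] at h3

theorem CHX (hCHE : CHE_stmt) (hWB : WB_stmt) (hLQ : LQ_stmt) : CHX_stmt := by
  obtain ⟨c, hc, i₁, hE⟩ := hCHE
  refine ⟨c, hc, i₁, ?_⟩
  intro x t I J lo hi Y θ a hx ht hY hsc hgap hθ ha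
  have key : ∀ θ : ℕ → ℝ, (∀ j < J, 0 ≤ θ j ∧ θ j ≤ 1 / 2) →
      EZ (fun b => ∏ j ∈ Finset.range J, (1 - (Y j).indicator (fun _ => θ j) b)) (F4 x t I) ≤
          Real.exp (-(c * ∑ j ∈ Finset.range J, θ j * a j)) * Pr (F4 x t I) := by
    intro θ hθ
    refine hE x t I J lo hi (fun j => (Y j).indicator fun _ => θ j) (fun j => θ j * a j) hx ht
      ⟨?_, ?_, ?_, ?_, ?_, hgap⟩ (fun j hj => (hsc j hj).2.2)
      (fun j hj => mul_nonneg (hθ j hj).1 (ha j hj).1) ?_
    · intro j hj b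
      exact Set.indicator_nonneg (fun _ _ => (hθ j hj).1) b
    · intro j hj b
      by_cases hb : b ∈ Y j
      · simp only [Set.indicator_of_mem hb]; exact (hθ j hj).2
      · simp only [Set.indicator_of_notMem hb]; norm_num
    · intro j hj
      exact (hWB.2.2.2.2.2.2.2 (Y j) (F4 x t I) _ _ (θ j) (hY j hj) (hLQ.1 x t I)).1
    · exact fun j hj => (hsc j hj).1
    · exact fun j hj => (hsc j hj).2.1
    · intro j hj
      have h1 := hsc j hj
      have hB : Loc (B4 x (lo j - 1) (hi j + 1)) (ann x (2 ^ (lo j - 1)) (2 ^ (hi j + 1))) :=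
        hLQ.2.2.1 x _ _ (by omega)
      rw [(hWB.2.2.2.2.2.2.2 (Y j) (B4 x (lo j - 1) (hi j + 1)) _ _ (θ j) (hY j hj) hB).2,
        mul_assoc]
      exact mul_le_mul_of_nonneg_left (ha j hj).2 (hθ j hj).1
  refine ⟨key θ hθ, ?_⟩
  have h1 := key (fun _ => 1 / 2) (fun j _ => ⟨by norm_num, le_rfl⟩)
  have e : -(c * ∑ j ∈ Finset.range J, 1 / 2 * a j) = -(c / 2 * ∑ j ∈ Finset.range J, a j) := by
    rw [← Finset.mul_sum]
    ring
  rw [e] at h1
  refine le_trans ?_ h1
  -- the probability that no `Y j` occurs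
  have hN := CHS_loc_none J (fun j hj => (hY j hj).mono (Set.subset_univ _))
  have hind := hWB.2.2.2.2.2.2.2 {b | ∀ j < J, b ∉ Y j} (F4 x t I) Set.univ _ 1 hN (hLQ.1 x t I)
  have e2 : Pr (F4 x t I ∩ {b | ∀ j < J, b ∉ Y j}) =
      EZ ({b | ∀ j < J, b ∉ Y j}.indicator fun _ => 1) (F4 x t I) := by
    rw [hind.2, one_mul, Set.inter_comm]
  rw [e2]
  refine hWB.2.1 _ _ (F4 x t I) (F4 x t I) Set.univ _ hind.1 ?_ (hLQ.1 x t I) (hLQ.1 x t I)
    subset_rfl ?_ ?_
  · refine CHS_locF_prod J fun j hj => ?_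
    exact CHS_locF_mono (hWB.2.2.2.2.2.2.2 (Y j) (F4 x t I) _ _ (1 / 2) (hY j hj) (hLQ.1 x t I)).1
      (Set.subset_univ _)
  · intro b
    exact Set.indicator_nonneg (fun _ _ => zero_le_one) b
  · intro b
    by_cases hb : b ∈ {b | ∀ j < J, b ∉ Y j}
    · rw [Set.indicator_of_mem hb]
      have : ∏ j ∈ Finset.range J, (1 - (Y j).indicator (fun _ => (1 / 2 : ℝ)) b) = 1 := by
        refine Finset.prod_eq_one fun j hj => ?_
        rw [Set.indicator_of_notMem (hb j (Finset.mem_range.1 hj)), sub_zero]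
      rw [this]
    · rw [Set.indicator_of_notMem hb]
      refine Finset.prod_nonneg fun j _ => ?_
      by_cases hj : b ∈ Y j
      · rw [Set.indicator_of_mem hj]; norm_num
      · rw [Set.indicator_of_notMem hj]; norm_num

end TP.K
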